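import Pool.Agent.FHQ.StmtsW

/-!
# LOC: the local power series at a simple point
-/

set_option autoImplicit false

open scoped BigOperators

noncomputable section

namespace Pool.Agent.FHQ.H35

open Polynomial Pool.Agent.FHQ

variable {k : Type} [Field k]

/-! ### Hensel's lemma for `k⟦s⟧` -/

/-- the successive approximations -/
def apx (P : (PowerSeries k)[X]) (t u : k) : ℕ → PowerSeries k
  | 0 => PowerSeries.C t
  | n + 1 => apx P t u n -
      PowerSeries.C (PowerSeries.coeff (n + 1) (P.eval (apx P t u n)) / u) * PowerSeries.X ^ (n + 1)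

theorem apx_succ (P : (PowerSeries k)[X]) (t u : k) (n : ℕ) :
    apx P t u (n + 1) = apx P t u n -
      PowerSeries.C (PowerSeries.coeff (n + 1) (P.eval (apx P t u n)) / u) *
        PowerSeries.X ^ (n + 1) := rfl

theorem apx_const (P : (PowerSeries k)[X]) (t u : k) (n : ℕ) :
    PowerSeries.constantCoeff (apx P t u n) = t := by
  induction n with
  | zero => exact PowerSeries.constantCoeff_C t
  | succ n ih =>
    rw [apx_succ, map_sub, ih, map_mul, map_pow, PowerSeries.constantCoeff_X,
      zero_pow (Nat.succ_ne_zero n), mul_zero, sub_zero]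

theorem const_eval (P : (PowerSeries k)[X]) (a b : PowerSeries k)
    (h : PowerSeries.constantCoeff a = PowerSeries.constantCoeff b) :
    PowerSeries.constantCoeff (P.eval a) = PowerSeries.constantCoeff (P.eval b) := by
  have h1 := sub_dvd_eval_sub a b P
  obtain ⟨c, hc⟩ := h1
  have h2 := congrArg (fun z => PowerSeries.constantCoeff z) hc
  rw [map_sub, map_mul, map_sub, h, sub_self, zero_mul, sub_eq_zero] at h2
  exact h2

theorem apx_dvd (P : (PowerSeries k)[X]) (t u : k)
    (h0 : PowerSeries.constantCoeff (P.eval (PowerSeries.C t)) = 0)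
    (hu : PowerSeries.constantCoeff ((derivative P).eval (PowerSeries.C t)) = u) (hu0 : u ≠ 0)
    (n : ℕ) : (PowerSeries.X : PowerSeries k) ^ (n + 1) ∣ P.eval (apx P t u n) := by
  induction n with
  | zero =>
    rw [zero_add, pow_one, PowerSeries.X_dvd_iff]
    exact h0
  | succ n ih =>
    rw [PowerSeries.X_pow_dvd_iff]
    intro m hm
    rw [apx_succ, sub_eq_add_neg]
    obtain ⟨q, hq⟩ := binomExpansion P (apx P t u n)
      (-(PowerSeries.C (PowerSeries.coeff (n + 1) (P.eval (apx P t u n)) / u) *
        PowerSeries.X ^ (n + 1)))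
    set w := PowerSeries.coeff (n + 1) (P.eval (apx P t u n)) with hw
    have e1 : q * (-(PowerSeries.C (w / u) * PowerSeries.X ^ (n + 1))) ^ 2 =
        (q * PowerSeries.C (w / u) ^ 2 * PowerSeries.X ^ n) * PowerSeries.X ^ (n + 1 + 1) := by
      ring
    have e2 : (derivative P).eval (apx P t u n) *
        (-(PowerSeries.C (w / u) * PowerSeries.X ^ (n + 1))) =
        (-(derivative P).eval (apx P t u n) * PowerSeries.C (w / u)) * PowerSeries.X ^ (n + 1) := by
      ring
    rw [hq, e1, e2, map_add, map_add]
    have e3 : PowerSeries.coeff m ((q * PowerSeries.C (w / u) ^ 2 * PowerSeries.X ^ n) *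
        (PowerSeries.X : PowerSeries k) ^ (n + 1 + 1)) = 0 :=
      (PowerSeries.X_pow_dvd_iff.1 (Dvd.intro_left _ rfl)) m hm
    rw [e3, add_zero]
    rcases Nat.lt_or_ge m (n + 1) with hmn | hmn
    · rw [PowerSeries.X_pow_dvd_iff.1 ih m hmn,
        (PowerSeries.X_pow_dvd_iff.1 (Dvd.intro_left _ rfl)) m hmn, add_zero]
    · have hm2 : m = n + 1 := by omega
      subst hm2
      rw [PowerSeries.coeff_mul_X_pow', if_pos le_rfl, Nat.sub_self,
        PowerSeries.coeff_zero_eq_constantCoeff_apply, map_mul, map_neg,
        const_eval (derivative P) (apx P t u n) (PowerSeries.C t)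
          (by rw [apx_const, PowerSeries.constantCoeff_C]), hu, PowerSeries.constantCoeff_C, ← hw]
      field_simp
      ring

theorem apx_coeff (P : (PowerSeries k)[X]) (t u : k) (i n : ℕ) (h : i ≤ n) :
    PowerSeries.coeff i (apx P t u n) = PowerSeries.coeff i (apx P t u i) := by
  induction n with
  | zero =>
    have : i = 0 := by omega
    rw [this]
  | succ n ih =>
    rcases Nat.lt_or_ge n i with h1 | h1
    · have : i = n + 1 := by omega
      rw [this]
    · rw [apx_succ, map_sub, PowerSeries.coeff_mul_X_pow', if_neg (by omega), sub_zero, ih h1]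

theorem hensel_ps (P : (PowerSeries k)[X]) (t : k)
    (h0 : PowerSeries.constantCoeff (P.eval (PowerSeries.C t)) = 0)
    (hu : PowerSeries.constantCoeff ((derivative P).eval (PowerSeries.C t)) ≠ 0) :
    ∃ τ : PowerSeries k, PowerSeries.constantCoeff τ = t ∧ P.eval τ = 0 := by
  set u := PowerSeries.constantCoeff ((derivative P).eval (PowerSeries.C t)) with hudef
  refine ⟨PowerSeries.mk fun n => PowerSeries.coeff n (apx P t u n), ?_, ?_⟩
  · rw [← PowerSeries.coeff_zero_eq_constantCoeff_apply, PowerSeries.coeff_mk,
      PowerSeries.coeff_zero_eq_constantCoeff_apply, apx_const]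
  · ext n
    rw [map_zero]
    have h1 : (PowerSeries.X : PowerSeries k) ^ (n + 1) ∣
        (PowerSeries.mk fun n => PowerSeries.coeff n (apx P t u n)) - apx P t u n := by
      rw [PowerSeries.X_pow_dvd_iff]
      intro m hm
      rw [map_sub, PowerSeries.coeff_mk, apx_coeff P t u m n (by omega), sub_self]
    have h2 := h1.trans (sub_dvd_eval_sub _ (apx P t u n) P)
    have h3 := dvd_add h2 (apx_dvd P t u h0 hudef.symm hu n)
    rw [sub_add_cancel] at h3
    exact PowerSeries.X_pow_dvd_iff.1 h3 n (Nat.lt_succ_self n)

/-! ### evaluation -/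

/-- the coefficient map `a(X) ↦ a(x + s)` -/
def phi (x : k) : k[X] →+* PowerSeries k :=
  eval₂RingHom (PowerSeries.C : k →+* PowerSeries k) (PowerSeries.C x + PowerSeries.X)

theorem psv_eq (x : k) (τ : PowerSeries k) (F : k[X][X]) :
    psv x τ F = F.eval₂ (phi x) τ := rfl

theorem psv_eval (x : k) (τ : PowerSeries k) (F : k[X][X]) :
    psv x τ F = (F.map (phi x)).eval τ := by
  rw [psv_eq, eval_map]

theorem const_phi (x : k) : (PowerSeries.constantCoeff : PowerSeries k →+* k).comp (phi x) =
    evalRingHom x := by
  apply Polynomial.ringHom_ext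
  · intro a
    unfold phi
    rw [RingHom.comp_apply, coe_eval₂RingHom, eval₂_C, PowerSeries.constantCoeff_C,
      coe_evalRingHom, eval_C]
  · unfold phi
    rw [RingHom.comp_apply, coe_eval₂RingHom, eval₂_X, map_add, PowerSeries.constantCoeff_C,
      PowerSeries.constantCoeff_X, add_zero, coe_evalRingHom, eval_X]

theorem const_psv (x : k) (τ : PowerSeries k) (F : k[X][X]) :
    PowerSeries.constantCoeff (psv x τ F) = ev x (PowerSeries.constantCoeff τ) F := by
  rw [psv_eq, Polynomial.hom_eval₂, const_phi]
  rfl

/-! ### the chain rule -/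

theorem phi_X (x : k) : phi x (X : k[X]) = PowerSeries.C x + PowerSeries.X := by
  unfold phi
  rw [coe_eval₂RingHom, eval₂_X]

theorem phi_C (x a : k) : phi x (C a) = PowerSeries.C a := by
  unfold phi
  rw [coe_eval₂RingHom, eval₂_C]

theorem der_phi (x : k) (a : k[X]) :
    PowerSeries.derivative k (phi x a) = phi x (derivative a) := by
  induction a using Polynomial.induction_on' with
  | add f g hf hg => rw [map_add, map_add, hf, hg, map_add, map_add]
  | monomial n c =>
    have e1 : ∀ (m : ℕ) (b : k), phi x (monomial m b) =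
        PowerSeries.C b * (PowerSeries.C x + PowerSeries.X) ^ m := by
      intro m b
      rw [← C_mul_X_pow_eq_monomial, map_mul, map_pow, phi_X, phi_C]
    rw [derivative_monomial, e1, e1, Derivation.leibniz,
      PowerSeries.derivative_C, smul_zero, add_zero, Derivation.leibniz_pow, map_add,
      PowerSeries.derivative_C, PowerSeries.derivative_X, zero_add, smul_eq_mul, smul_eq_mul,
      nsmul_eq_mul, mul_one, map_mul, map_natCast]
    ring

theorem der_psv (x : k) (τ : PowerSeries k) (F : k[X][X]) :
    PowerSeries.derivative k (psv x τ F) =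
      psv x τ (dX F) + psv x τ (derivative F) * PowerSeries.derivative k τ := by
  have hadd : ∀ f g : k[X][X], dX (f + g) = dX f + dX g := by
    intro f g
    ext1 b
    rw [coeff_dX, coeff_add, coeff_add, coeff_dX, coeff_dX, derivative_add]
  induction F using Polynomial.induction_on' with
  | add f g hf hg =>
    rw [map_add, map_add, hf, hg, hadd, map_add, derivative_add, map_add]
    ring
  | monomial n c =>
    have h1 : dX (monomial n c) = monomial n (derivative c) := by
      ext1 b
      rw [coeff_dX, coeff_monomial, coeff_monomial]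
      split_ifs
      · rfl
      · exact derivative_zero
    rw [h1, derivative_monomial, psv_eq, psv_eq, psv_eq, eval₂_monomial, eval₂_monomial,
      eval₂_monomial, Derivation.leibniz, Derivation.leibniz_pow, der_phi, smul_eq_mul,
      smul_eq_mul, smul_eq_mul, nsmul_eq_mul, map_mul, map_natCast]
    ring

theorem psv_Dv (x : k) (τ : PowerSeries k) (h F : k[X][X]) (hh : psv x τ h = 0) :
    psv x τ (derivative h) * PowerSeries.derivative k (psv x τ F) = psv x τ (Dv h F) := by
  have h1 := der_psv x τ h
  rw [hh, map_zero] at h1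
  unfold Dv
  rw [map_sub, map_mul, map_mul, der_psv x τ F]
  linear_combination (-(psv x τ (derivative F))) * h1

theorem loc : LocStmt := by
  intro k _ p _ _ h x t h0 h1
  have e0 : ∀ F : k[X][X], PowerSeries.constantCoeff ((F.map (phi x)).eval (PowerSeries.C t)) =
      ev x t F := by
    intro F
    rw [← psv_eval, const_psv, PowerSeries.constantCoeff_C]
  obtain ⟨τ, hτ, hP⟩ := hensel_ps (h.map (phi x)) t (by rw [e0, h0])
    (by rw [derivative_map, e0]; exact h1)
  rw [← psv_eval] at hP
  have hc : ∀ F : k[X][X], PowerSeries.constantCoeff (psv x τ F) = ev x t F := by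
    intro F
    rw [const_psv, hτ]
  refine ⟨τ, hτ, hP, hc, ?_⟩
  have hunit : IsUnit (psv x τ (derivative h)) := by
    rw [PowerSeries.isUnit_iff_constantCoeff, hc]
    exact isUnit_iff_ne_zero.2 h1
  have key : ∀ n : ℕ, n ≤ p → ∀ F : k[X][X], (∀ i < n, ev x t ((Dv h)^[i] F) = 0) →
      (PowerSeries.X : PowerSeries k) ^ n ∣ psv x τ F := by
    intro n
    induction n with
    | zero =>
      intro _ F _
      rw [pow_zero]
      exact one_dvd _
    | succ n ih =>
      intro hn F hF
      have h2 := ih (by omega) (Dv h F) (by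
        intro i hi
        have := hF (i + 1) (by omega)
        rwa [Function.iterate_succ_apply] at this)
      rw [← psv_Dv x τ h F hP] at h2
      rw [hunit.dvd_mul_left] at h2
      rw [PowerSeries.X_pow_dvd_iff]
      intro m hm
      rcases Nat.eq_zero_or_pos m with h3 | h3
      · rw [h3, PowerSeries.coeff_zero_eq_constantCoeff_apply, hc]
        exact hF 0 (by omega)
      · have h4 := PowerSeries.X_pow_dvd_iff.1 h2 (m - 1) (by omega)
        rw [PowerSeries.coeff_derivative] at h4
        have h5 : m - 1 + 1 = m := by omega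
        rw [h5] at h4
        have h6 : ((m - 1 : ℕ) : k) + 1 = (m : k) := by
          rw [← Nat.cast_add_one, h5]
        rw [h6] at h4
        have h7 : (m : k) ≠ 0 := by
          rw [Ne, CharP.cast_eq_zero_iff k p]
          exact Nat.not_dvd_of_pos_of_lt h3 (by omega)
        exact (mul_eq_zero.1 h4).resolve_right h7
  intro l hl F hF
  exact key l hl F hF

end Pool.Agent.FHQ.H35
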