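import Pool.Agent.Helper35_FHQ.RTSa

/-!
# RTS: elimination, the induction step
-/

set_option autoImplicit false

open scoped BigOperators

noncomputable section

namespace Pool.Agent.FHQ.H35

open Polynomial Pool.Agent.FHQ

/-- one alternative -/
def Tg {n r D : ℕ} (G : Polynomial (MvPolynomial (Fin n) ℤ))
    (h W : Fin r → Polynomial (MvPolynomial (Fin n) ℤ)) (e : Fin r) (C : Cond r)
    (o : Fin r × Fin D) : Fam n := fun p K _ A x =>
  ∃ c : K, ((derivative^[(o.2 : ℕ)] (W o.1)).map (spz x)) ≠ 0 ∧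
    ((derivative^[(o.2 : ℕ)] (W o.1)).map (spz x)).eval c = 0 ∧
    (((G.map (spz x)).eval c = 0 ∧ C p (fun l => A.ac (((h l).map (spz x)).eval c))
        (fun l => A.v (((h l).map (spz x)).eval c))) ∨
      Theta r D {e} C p (fun i => A.ac ((taylor c ((h i.1).map (spz x))).coeff i.2))
        (fun i => A.v ((taylor c ((h i.1).map (spz x))).coeff i.2)))

theorem pasD_Tg (ubx : UbxStmt) (pdc : PdcStmt) {n r D D' : ℕ}
    (hR : RootD n D') (h W : Fin r → Polynomial (MvPolynomial (Fin n) ℤ)) (e : Fin r)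
    {C : Cond r} (hC : UB r C) (o : Fin r × Fin D) (hW : (W o.1).natDegree ≤ D') :
    PasD n (Tg (h e) h W e C o) := by
  have hd : (derivative^[(o.2 : ℕ)] (W o.1)).natDegree ≤ D' :=
    (natDegree_iterate_derivative _ _).trans (by omega)
  have hC1 : UB r (fun p a g => a e = 0 ∧ C p a g) := by
    refine H25.ub_and ?_ hC
    refine H25.ub_congr (H25.ub_R (RD.eq (MvPolynomial.X e))) fun p a g => ?_
    rw [MvPolynomial.aeval_X]
  have h1 := hR r (derivative^[(o.2 : ℕ)] (W o.1)) h _ hC1 hd
  obtain ⟨E⟩ : Nonempty (Fin r × Fin D ≃ Fin (Fintype.card (Fin r × Fin D))) :=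
    ⟨Fintype.equivFin _⟩
  have h2 := hR (Fintype.card (Fin r × Fin D)) (derivative^[(o.2 : ℕ)] (W o.1))
    (fun j => hasseDeriv ((E.symm j).2 : ℕ) (h (E.symm j).1))
    (fun p a g => Theta r D {e} C p (fun i => a (E i)) (fun i => g (E i)))
    (ubx r D {e} C hC _ E) hd
  refine H15.pasD_congr 0 (fun p _ K _ A _ x => ?_) (pdc n _ _ h1 h2).1
  unfold Tg
  have ht : ∀ (c : K) (i : Fin r × Fin D),
      (taylor c ((h i.1).map (spz x))).coeff i.2 =
        ((hasseDeriv (i.2 : ℕ) (h i.1)).map (spz x)).eval c := by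
    intro c i
    rw [taylor_coeff, H15.hasse_map]
  simp only [ht, Equiv.symm_apply_apply, A.ac_zero]
  constructor
  · rintro ⟨c, c1, c2, c3 | c3⟩
    · exact Or.inl ⟨c, c1, c2, c3⟩
    · exact Or.inr ⟨c, c1, c2, c3⟩
  · rintro (⟨c, c1, c2, c3⟩ | ⟨c, c1, c2, c3⟩)
    · exact ⟨c, c1, c2, Or.inl c3⟩
    · exact ⟨c, c1, c2, Or.inr c3⟩

theorem pasD_zero {n : ℕ} (a : MvPolynomial (Fin n) ℤ) :
    PasD n (fun p K _ A x => spz x a = 0) := by
  refine ⟨0, 1, fun _ => a, fun p α _ => α 0 = 0, ?_, ?_⟩
  · refine H25.ub_congr (H25.ub_R (RD.eq (MvPolynomial.X 0))) fun p a g => ?_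
    rw [MvPolynomial.aeval_X]
  · intro p _ K _ A _ x
    exact (A.ac_zero _).symm

theorem rts (qe : Qe2Stmt) (ubx : UbxStmt) (pdc : PdcStmt) (ubs : UbsStmt) (ube : UbeStmt) :
    RtsStmt := by
  classical
  intro n D hD hR r G h C hC hG
  obtain ⟨a, ha⟩ : ∃ a, a = G.coeff (D + 1) := ⟨_, rfl⟩
  obtain ⟨N, q, w, hw, he⟩ := pseudo_all G D hG h
  rw [← ha] at he
  -- the low part
  have hlow0 : (G - Polynomial.C a * X ^ (D + 1)).natDegree ≤ D := by
    rw [natDegree_le_iff_coeff_eq_zero]
    intro M hM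
    rw [coeff_sub, coeff_C_mul, coeff_X_pow]
    by_cases h1 : M = D + 1
    · rw [if_pos h1, mul_one, h1, ha, sub_self]
    · rw [if_neg h1, mul_zero, sub_zero]
      exact coeff_eq_zero_of_natDegree_lt (by omega)
  have hlow := hR r (G - Polynomial.C a * X ^ (D + 1)) h C hC hlow0
  -- the high part
  obtain ⟨h2, hh2⟩ : ∃ h2 : Fin (r + 2) → Polynomial (MvPolynomial (Fin n) ℤ),
      h2 = Fin.cons G (Fin.cons (Polynomial.C a) w) := ⟨_, rfl⟩
  have h20 : h2 0 = G := by rw [hh2]; rfl
  have h21 : h2 1 = Polynomial.C a := by rw [hh2]; rfl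
  have h2s : ∀ i : Fin r, h2 i.succ.succ = w i := fun i => by rw [hh2]; rfl
  obtain ⟨W, hW⟩ : ∃ W : Fin (r + 2) → Polynomial (MvPolynomial (Fin n) ℤ),
      W = Fin.cons (derivative G) (Fin.cons (Polynomial.C a) w) := ⟨_, rfl⟩
  have hW0 : W 0 = derivative G := by rw [hW]; rfl
  have hWs : ∀ i : Fin (r + 1), W i.succ = h2 i.succ := fun i => by rw [hW, hh2]; rfl
  have hWd : ∀ i, (W i).natDegree ≤ D := by
    intro i
    refine Fin.cases ?_ (fun i => ?_) i
    · rw [hW0]
      exact (natDegree_derivative_le G).trans (by omega)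
    · rw [hWs]
      refine Fin.cases ?_ (fun i => ?_) i
      · rw [show (Fin.succ 0 : Fin (r + 2)) = 1 from rfl, h21, natDegree_C]
        exact Nat.zero_le _
      · rw [h2s]
        exact hw i
  have hC1 : UB (r + 2) (CS (CC C N)) := ub_CS ubs (ub_CC ube ubs hC N)
  have key : ∀ o : Fin (r + 2) × Fin (D + 2), PasD n (Tg (h2 0) h2 W 0 (CS (CC C N)) o) :=
    fun o => pasD_Tg ubx pdc hR h2 W 0 hC1 o (hWd _)
  have hhigh := H15.pasD_exists pdc Finset.univ
    (fun o : Fin (r + 2) × Fin (D + 2) => Tg (h2 0) h2 W 0 (CS (CC C N)) o) fun o _ => key o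
  have hz := pasD_zero a
  refine H15.pasD_congr (D + 2) ?_ (pdc n _ _ (pdc n _ _ hz hlow).2.1
    (pdc n _ _ (pdc n _ _ hz hz).2.2 hhigh).2.1).1
  intro p _ K _ A hp x
  have hGm : ∀ M, (G.map (spz x)).coeff M = spz x (G.coeff M) := fun M => coeff_map _ _
  by_cases hax : spz x a = 0
  · -- `a(x) = 0`
    have e1 : (G - Polynomial.C a * X ^ (D + 1)).map (spz x) = G.map (spz x) := by
      rw [Polynomial.map_sub, Polynomial.map_mul, map_C, hax, C_0, zero_mul, sub_zero]
    constructor
    · intro h3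
      refine Or.inl ⟨hax, ?_⟩
      rw [e1]
      exact h3
    · rintro (⟨-, h3⟩ | ⟨h3, -⟩)
      · rw [e1] at h3
        exact h3
      · exact absurd hax h3
  · -- `a(x) ≠ 0`
    have hg0 : G.map (spz x) ≠ 0 := by
      intro h3
      have h4 := hGm (D + 1)
      rw [h3, coeff_zero, ← ha] at h4
      exact hax h4.symm
    have hgd : (G.map (spz x)).natDegree = D + 1 := by
      refine le_antisymm (natDegree_map_le.trans hG) (le_natDegree_of_ne_zero ?_)
      rw [hGm, ← ha]
      exact hax
    have hmain : (∃ c : K, G.map (spz x) ≠ 0 ∧ (G.map (spz x)).eval c = 0 ∧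
        C p (fun i => A.ac (((h i).map (spz x)).eval c))
          (fun i => A.v (((h i).map (spz x)).eval c))) ↔
        ∃ c : K, ((h2 0).map (spz x)).eval c = 0 ∧
          CS (CC C N) p (fun l => A.ac (((h2 l).map (spz x)).eval c))
            (fun l => A.v (((h2 l).map (spz x)).eval c)) := by
      refine exists_congr fun c => ?_
      rw [h20]
      constructor
      · rintro ⟨-, h3, h4⟩
        refine ⟨h3, ?_⟩
        refine (CC_iff A.toAcF0 C N (spz x a) hax (fun i => ((h i).map (spz x)).eval c)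
          (fun i => ((w i).map (spz x)).eval c) ?_ _ _ ?_ ?_ ?_ ?_).2 h4
        · intro i
          have h5 := congrArg (fun P : Polynomial (MvPolynomial (Fin n) ℤ) =>
            (P.map (spz x)).eval c) (he i)
          simp only [Polynomial.map_add, Polynomial.map_mul, Polynomial.map_pow, map_C,
            eval_add, eval_mul, eval_pow, eval_C, h3, mul_zero, zero_add] at h5
          exact h5.symm
        · show A.ac (((h2 1).map (spz x)).eval c) = A.ac (spz x a)
          rw [h21, map_C, eval_C]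
        · intro i
          show A.ac (((h2 i.succ.succ).map (spz x)).eval c) = _
          rw [h2s]
        · show A.v (((h2 1).map (spz x)).eval c) = A.v (spz x a)
          rw [h21, map_C, eval_C]
        · intro i
          show A.v (((h2 i.succ.succ).map (spz x)).eval c) = _
          rw [h2s]
      · rintro ⟨h3, h4⟩
        refine ⟨hg0, h3, ?_⟩
        refine (CC_iff A.toAcF0 C N (spz x a) hax (fun i => ((h i).map (spz x)).eval c)
          (fun i => ((w i).map (spz x)).eval c) ?_ _ _ ?_ ?_ ?_ ?_).1 h4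
        · intro i
          have h5 := congrArg (fun P : Polynomial (MvPolynomial (Fin n) ℤ) =>
            (P.map (spz x)).eval c) (he i)
          simp only [Polynomial.map_add, Polynomial.map_mul, Polynomial.map_pow, map_C,
            eval_add, eval_mul, eval_pow, eval_C, h3, mul_zero, zero_add] at h5
          exact h5.symm
        · show A.ac (((h2 1).map (spz x)).eval c) = A.ac (spz x a)
          rw [h21, map_C, eval_C]
        · intro i
          show A.ac (((h2 i.succ.succ).map (spz x)).eval c) = _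
          rw [h2s]
        · show A.v (((h2 1).map (spz x)).eval c) = A.v (spz x a)
          rw [h21, map_C, eval_C]
        · intro i
          show A.v (((h2 i.succ.succ).map (spz x)).eval c) = _
          rw [h2s]
    have hdeg : ∀ l, ((h2 l).map (spz x)).natDegree < D + 2 := by
      intro l
      refine lt_of_le_of_lt natDegree_map_le ?_
      refine Fin.cases ?_ (fun i => ?_) l
      · rw [h20]; omega
      · have h5 := hWd i.succ
        rw [hWs] at h5
        omega
    have hcc : ∀ (α α' : Fin (r + 2) → ZMod p) (γ γ' : Fin (r + 2) → ℤ),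
        (∀ l, l ≠ 0 → α l = α' l ∧ γ l = γ' l) →
        (CS (CC C N) p α γ ↔ CS (CC C N) p α' γ') := by
      intro α α' γ γ' hαγ
      unfold CS
      have e1 : (fun j : Fin (r + 1) => α j.succ) = fun j => α' j.succ :=
        funext fun j => (hαγ j.succ (Fin.succ_ne_zero j)).1
      have e2 : (fun j : Fin (r + 1) => γ j.succ) = fun j => γ' j.succ :=
        funext fun j => (hαγ j.succ (Fin.succ_ne_zero j)).2
      rw [e1, e2]
    have hq := qe p K A (r + 2) (D + 2) (fun l => (h2 l).map (spz x)) 0 hp hdeg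
      (by
        show 2 ≤ ((h2 0).map (spz x)).natDegree
        rw [h20, hgd]
        omega) (CS (CC C N)) hcc
    have e3 : ∀ (o : Fin (r + 2)) (s : ℕ), (derivative^[s] (W o)).map (spz x) =
        derivative^[s] ((W o).map (spz x)) := fun o s =>
      (iterate_derivative_map (W o) (spz x) s).symm
    have hfin : (∃ c : K, ((h2 0).map (spz x)).eval c = 0 ∧
          CS (CC C N) p (fun l => A.ac (((h2 l).map (spz x)).eval c))
            (fun l => A.v (((h2 l).map (spz x)).eval c))) ↔
        ∃ o ∈ (Finset.univ : Finset (Fin (r + 2) × Fin (D + 2))),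
          Tg (h2 0) h2 W 0 (CS (CC C N)) o p K A x := by
      rw [hq]
      constructor
      · rintro ⟨u, hu, s, hs, hu0, c, hc, hcc'⟩
        obtain ⟨o, ho⟩ : ∃ o, (W o).map (spz x) = u := by
          rcases hu with rfl | ⟨l, hl, rfl⟩
          · refine ⟨0, ?_⟩
            rw [hW0, h20, derivative_map]
          · refine Fin.cases (motive := fun l => l ∈ {l : Fin (r + 2) | l ≠ 0} →
              ∃ o, (W o).map (spz x) = (h2 l).map (spz x)) ?_ (fun i _ => ?_) l hl
            · intro h0
              exact absurd rfl h0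
            · exact ⟨i.succ, by rw [hWs]⟩
        refine ⟨(o, ⟨s, hs⟩), Finset.mem_univ _, c, ?_, ?_, hcc'⟩
        · rw [e3, ho]; exact hu0
        · rw [e3, ho]; exact hc
      · rintro ⟨⟨o, s⟩, -, c, c1, c2, c3⟩
        rw [e3] at c1 c2
        refine ⟨(W o).map (spz x), ?_, s, s.2, c1, c, c2, c3⟩
        refine Fin.cases ?_ (fun i => ?_) o
        · left
          rw [hW0, h20, derivative_map]
        · right
          exact ⟨i.succ, Fin.succ_ne_zero i, by rw [hWs]⟩
    rw [hmain, hfin]
    constructor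
    · intro h3
      exact Or.inr ⟨hax, h3⟩
    · rintro (⟨h3, -⟩ | ⟨-, h3⟩)
      · exact absurd h3 hax
      · exact h3

end Pool.Agent.FHQ.H35
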