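import Pool.Agent.Helper35_FHQ.STPb

/-!
# STP: Stepanov's method, assembly
-/

set_option autoImplicit false

open scoped BigOperators

noncomputable section

namespace Pool.Agent.FHQ.H35

open Polynomial Pool.Agent.FHQ

theorem ev_basic {k : Type} [Field k] (x t : k) (i j : ℕ) :
    evH x t (C ((X : k[X]) ^ i) * X ^ j) = x ^ i * t ^ j := by
  rw [map_mul]
  congr 1
  · rw [evH_apply, ev_eq, eval₂_C, coe_evalRingHom, eval_pow, eval_X]
  · rw [map_pow, evH_apply, ev_eq, eval₂_X]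

theorem stp (dve : DveStmt) (red : RedStmt) (loc : LocStmt) (nr : NrmStmt) (nvn : NvnStmt) :
    StpStmt := by
  intro p _ d e m L h h' hh' hMh hd hL hirr h1 h2 h3 hlt
  classical
  have _i : CharP (AlgebraicClosure (ZMod p)) p := charP_AC p
  obtain ⟨d1, d2, d3, d4, d5, d6⟩ := dve (AlgebraicClosure (ZMod p)) p d e h' hMh
  obtain ⟨n1, n2, n3, n4, n5, n6⟩ := nr (AlgebraicClosure (ZMod p)) d e h' hMh (by omega)
  have hd0 : 0 < d := by omega
  obtain ⟨I, hI⟩ : ∃ I, I = (d - 1) * L := ⟨_, rfl⟩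
  rw [← hI] at hlt ⊢
  obtain ⟨c, hc0, hc⟩ := exists_ker h' e I d m (d * L) hd hMh d5 red hlt
  obtain ⟨A, hAdef⟩ : ∃ A : (AlgebraicClosure (ZMod p))[X][X], A =
      ∑ i : Fin (I + 1), ∑ j : Fin d, rr c i j * (C (X ^ (i : ℕ)) * X ^ (j : ℕ)) ^ p := ⟨_, rfl⟩
  have hA : ¬ h' ∣ A := by
    intro hdv
    rw [hAdef] at hdv
    have h5 := nvn (AlgebraicClosure (ZMod p)) p d e m I h' hMh hd0 hirr h1 h3
      (fun i j => rr c i j) (fun i j => rr_bd hd0 c i j) hdv
    apply hc0
    funext ⟨i, j, a, b⟩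
    have h6 := rr_coeff_coeff c i j b a
    have h7 : rr c i j = 0 := h5 i j
    rw [h7, coeff_zero, coeff_zero] at h6
    exact h6.symm
  have hN : nrm d h' A ≠ 0 := n2 hirr A hA
  have hdeg : (nrm d h' A).natDegree ≤ d * (m + d * e + p * (I + d * e)) := by
    apply n1
    rw [hAdef]
    refine wd_sum _ _ fun i _ => wd_sum _ _ fun j _ => ?_
    have w1 := wd_bd (e := e) (rr_bd hd0 c i j).1 (rr_bd hd0 c i j).2
    have w2 := wd_pow d6 (wd_basic (k := AlgebraicClosure (ZMod p)) e i j) p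
    refine wd_mono ?_ (d6 _ _ _ _ w1 w2)
    have h4 : (i : ℕ) ≤ I := Nat.lt_succ_iff.1 i.2
    have h5 : e * (d - 1) ≤ d * e := by
      rw [mul_comm d e]
      exact Nat.mul_le_mul_left e (Nat.sub_le _ _)
    have h6 : e * (j : ℕ) ≤ d * e := by
      rw [mul_comm d e]
      exact Nat.mul_le_mul_left e j.2.le
    have h7 : p * ((i : ℕ) + e * (j : ℕ)) ≤ p * (I + d * e) :=
      Nat.mul_le_mul_left p (Nat.add_le_add h4 h6)
    omega
  have hvan : ∀ (x : ZMod p) (t : AlgebraicClosure (ZMod p)),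
      ev (algebraMap (ZMod p) (AlgebraicClosure (ZMod p)) x) t h' = 0 →
      (∀ y : ZMod p, algebraMap (ZMod p) (AlgebraicClosure (ZMod p)) y ≠ t) →
      ∀ n < d * L,
        ev (algebraMap (ZMod p) (AlgebraicClosure (ZMod p)) x) t ((Dv h')^[n] A) = 0 := by
    intro x t hx ht n hn
    have e1 : (Dv h')^[n] A = ∑ i : Fin (I + 1), ∑ j : Fin d,
        (Dv h')^[n] (rr c i j) * (C (X ^ (i : ℕ)) * X ^ (j : ℕ)) ^ p := by
      rw [hAdef, Dv_iter_sum]
      refine Finset.sum_congr rfl fun i _ => ?_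
      rw [Dv_iter_sum]
      refine Finset.sum_congr rfl fun j _ => ?_
      exact d3 _ _ _
    have e2 : (algebraMap (ZMod p) (AlgebraicClosure (ZMod p)) x) ^ p =
        algebraMap (ZMod p) (AlgebraicClosure (ZMod p)) x := by
      rw [← map_pow, ZMod.pow_card]
    have e3 : (algebraMap (ZMod p) (AlgebraicClosure (ZMod p)) x, t, t ^ p) ∈ ZZ h' := by
      refine ⟨hx, ?_, ?_⟩
      · change ev (algebraMap (ZMod p) (AlgebraicClosure (ZMod p)) x) (t ^ p) h' = 0
        have e4 := frob_ev p h x t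
        rw [← hh', hx, zero_pow (Fact.out (p := p.Prime)).ne_zero] at e4
        exact e4
      · intro e4
        obtain ⟨y, hy⟩ := mem_prime p t e4
        exact ht y hy
    have e5 := hc n hn ⟨_, e3⟩
    rw [Phi_apply] at e5
    rw [e1, ← evH_apply, map_sum, ← e5]
    refine Finset.sum_congr rfl fun i _ => ?_
    rw [map_sum]
    refine Finset.sum_congr rfl fun j _ => ?_
    rw [map_mul, map_pow, ev_basic, evH_apply]
    congr 1
    change ((algebraMap (ZMod p) (AlgebraicClosure (ZMod p)) x) ^ (i : ℕ) * t ^ (j : ℕ)) ^ p =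
      (algebraMap (ZMod p) (AlgebraicClosure (ZMod p)) x) ^ (i : ℕ) * (t ^ p) ^ (j : ℕ)
    rw [mul_pow, ← pow_mul, mul_comm (i : ℕ) p, pow_mul, e2, ← pow_mul, ← pow_mul,
      mul_comm (j : ℕ) p]
  have hS : ∀ x : ZMod p, ∃ S : Finset (AlgebraicClosure (ZMod p)),
      ((nrm d h' (derivative h')).eval (algebraMap (ZMod p) (AlgebraicClosure (ZMod p)) x) ≠ 0 →
        ∀ t, t ∈ S ↔ ev (algebraMap (ZMod p) (AlgebraicClosure (ZMod p)) x) t h' = 0 ∧
          ∀ y : ZMod p, algebraMap (ZMod p) (AlgebraicClosure (ZMod p)) y ≠ t) ∧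
      (X - C (algebraMap (ZMod p) (AlgebraicClosure (ZMod p)) x)) ^ (d * L * S.card) ∣
        nrm d h' A := by
    intro x
    by_cases hx : (nrm d h' (derivative h')).eval
        (algebraMap (ZMod p) (AlgebraicClosure (ZMod p)) x) = 0
    · refine ⟨∅, fun h => absurd hx h, ?_⟩
      rw [Finset.card_empty, mul_zero, pow_zero]
      exact one_dvd _
    · obtain ⟨S, hS1, hS2⟩ := local_dvd p loc h2 hMh
        (algebraMap (ZMod p) (AlgebraicClosure (ZMod p)) x)
        (fun t ht ht' => hx (n3 (derivative h') _ t ht ht')) A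
        (fun τ hτ hz => n4 A _ τ hτ hz)
        (fun t => ∀ y : ZMod p, algebraMap (ZMod p) (AlgebraicClosure (ZMod p)) y ≠ t)
        (fun t ht hQ => hvan x t ht hQ)
      exact ⟨S, fun _ => hS1, hS2⟩
  choose S hS1 hS2 using hS
  have h8 := sum_le_natDegree (fun x : ZMod p => algebraMap (ZMod p) (AlgebraicClosure (ZMod p)) x)
    (algebraMap (ZMod p) (AlgebraicClosure (ZMod p))).injective
    (fun x => d * L * (S x).card) (nrm d h' A) hN hS2
  rw [← Finset.mul_sum] at h8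
  have h9 : {q : ZMod p × AlgebraicClosure (ZMod p) |
      ev (algebraMap _ _ q.1) q.2 h' = 0 ∧ (∀ y : ZMod p, algebraMap _ _ y ≠ q.2) ∧
      (nrm d h' (derivative h')).eval (algebraMap _ _ q.1) ≠ 0}.ncard ≤ ∑ x, (S x).card := by
    have h10 : {q : ZMod p × AlgebraicClosure (ZMod p) |
      ev (algebraMap _ _ q.1) q.2 h' = 0 ∧ (∀ y : ZMod p, algebraMap _ _ y ≠ q.2) ∧
      (nrm d h' (derivative h')).eval (algebraMap _ _ q.1) ≠ 0} ⊆
        ((Finset.univ.biUnion fun x : ZMod p => (S x).image (fun t => (x, t)) :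
          Finset (ZMod p × AlgebraicClosure (ZMod p))) :
            Set (ZMod p × AlgebraicClosure (ZMod p))) := by
      rintro ⟨x, t⟩ ⟨hq1, hq2, hq3⟩
      rw [Finset.mem_coe, Finset.mem_biUnion]
      refine ⟨x, Finset.mem_univ _, Finset.mem_image.2 ⟨t, ?_, rfl⟩⟩
      exact (hS1 x hq3 t).2 ⟨hq1, hq2⟩
    refine (Set.ncard_le_ncard h10 (Finset.finite_toSet _)).trans ?_
    rw [Set.ncard_coe_finset]
    refine Finset.card_biUnion_le.trans (Finset.sum_le_sum fun x _ => Finset.card_image_le)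
  exact (Nat.mul_le_mul_left _ h9).trans (h8.trans hdeg)

end Pool.Agent.FHQ.H35
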