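import Pool.Agent.Helper15_FHQ.EXQ
import Pool.Agent.Helper25_FHQ.RTZ

/-!
# RTS, part a: pseudo-division and the transformed condition
-/

set_option autoImplicit false

open scoped BigOperators

noncomputable section

namespace Pool.Agent.FHQ.H35

open Polynomial Pool.Agent.FHQ

/-! ### pseudo-division -/

theorem pseudo {R : Type} [CommRing R] (G : R[X]) (D : ℕ) (hG : G.natDegree ≤ D + 1) :
    ∀ (s : ℕ) (h : R[X]), h.natDegree ≤ s → ∃ (N : ℕ) (q w : R[X]), w.natDegree ≤ D ∧
      C (G.coeff (D + 1)) ^ N * h = q * G + w := by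
  intro s
  induction s with
  | zero =>
    intro h hs
    exact ⟨0, 0, h, by omega, by rw [pow_zero, one_mul, zero_mul, zero_add]⟩
  | succ s ih =>
    intro h hs
    rcases Nat.lt_or_ge D (s + 1) with hD | hD
    · obtain ⟨u, hu⟩ : ∃ u, s + 1 = u + (D + 1) := ⟨s - D, by omega⟩
      have h1 : (C (G.coeff (D + 1)) * h - C (h.coeff (s + 1)) * (X ^ u * G)).natDegree ≤ s := by
        rw [natDegree_le_iff_coeff_eq_zero]
        intro N hN
        rw [coeff_sub, coeff_C_mul, coeff_C_mul, coeff_X_pow_mul', if_pos (by omega)]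
        rcases Nat.lt_or_ge (s + 1) N with h2 | h2
        · rw [coeff_eq_zero_of_natDegree_lt (by omega : h.natDegree < N),
            coeff_eq_zero_of_natDegree_lt (by omega : G.natDegree < N - u), mul_zero, mul_zero,
            sub_zero]
        · have h3 : N = s + 1 := by omega
          have h4 : N - u = D + 1 := by omega
          rw [h4, h3]
          ring
      obtain ⟨N, q, w, hw, he⟩ := ih _ h1
      refine ⟨N + 1, q + C (G.coeff (D + 1)) ^ N * (C (h.coeff (s + 1)) * X ^ u), w, hw, ?_⟩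
      linear_combination he
    · exact ⟨0, 0, h, by omega, by rw [pow_zero, one_mul, zero_mul, zero_add]⟩

theorem pseudo_all {R : Type} [CommRing R] (G : R[X]) (D : ℕ) (hG : G.natDegree ≤ D + 1) {r : ℕ}
    (h : Fin r → R[X]) : ∃ (N : ℕ) (q w : Fin r → R[X]), (∀ i, (w i).natDegree ≤ D) ∧
      ∀ i, C (G.coeff (D + 1)) ^ N * h i = q i * G + w i := by
  choose N q w hw he using fun i => pseudo G D hG (h i).natDegree (h i) le_rfl
  refine ⟨Finset.univ.sup N, fun i => C (G.coeff (D + 1)) ^ (Finset.univ.sup N - N i) * q i,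
    fun i => C (G.coeff (D + 1)) ^ (Finset.univ.sup N - N i) * w i, ?_, ?_⟩
  · intro i
    change (C (G.coeff (D + 1)) ^ (Finset.univ.sup N - N i) * w i).natDegree ≤ D
    rw [← C_pow]
    exact (natDegree_C_mul_le _ _).trans (hw i)
  · intro i
    have h1 : N i ≤ Finset.univ.sup N := Finset.le_sup (Finset.mem_univ i)
    have h2 : Finset.univ.sup N = (Finset.univ.sup N - N i) + N i := by omega
    conv_lhs => rw [h2, pow_add, mul_assoc, he i]
    ring

/-! ### the transformed condition -/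

/-- the condition on `(rv B, rv (B ^ N y_i))` -/
def CC {r : ℕ} (C : Cond r) (N : ℕ) : Cond (r + 1) := fun p a g =>
  ∃ T : Finset (Fin r), ∃ (z : ZMod p) (h : ℤ), H25.ET C N T p (Fin.cons z a) (Fin.cons h g)

theorem ub_CC (ube : UbeStmt) (ubs : UbsStmt) {r : ℕ} {C : Cond r} (hC : UB r C) (N : ℕ) :
    UB (r + 1) (CC C N) :=
  H25.ub_some _ fun T => ube (r + 1) _ (H25.ub_ET ubs hC N T)

theorem CC_iff {p : ℕ} [Fact p.Prime] {K : Type} [Field K] (A : AcF0 p K) {r : ℕ} (C : Cond r)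
    (N : ℕ) (B : K) (hB : B ≠ 0) (y H : Fin r → K) (hH : ∀ i, H i = B ^ N * y i)
    (α : Fin (r + 1) → ZMod p) (γ : Fin (r + 1) → ℤ) (hα0 : α 0 = A.ac B)
    (hα : ∀ i : Fin r, α i.succ = A.ac (H i)) (hγ0 : γ 0 = A.v B)
    (hγ : ∀ i : Fin r, γ i.succ = A.v (H i)) :
    CC C N p α γ ↔ C p (fun i => A.ac (y i)) (fun i => A.v (y i)) := by
  classical
  have hB' : A.ac B ≠ 0 := H25.ac_ne _ hB
  have hval : ∀ i, A.ac (y i) = A.ac (H i) * (A.ac B)⁻¹ ^ N ∧
      A.v (y i) = if H i = 0 then 0 else A.v (H i) - N * A.v B := by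
    intro i
    constructor
    · rw [hH i, A.ac_mul, H25.ac_pow, inv_pow]
      rw [mul_comm (A.ac B ^ N), mul_assoc, mul_inv_cancel₀ (pow_ne_zero _ hB'), mul_one]
    · by_cases h0 : y i = 0
      · rw [if_pos (by rw [hH i, h0, mul_zero]), h0, A.v_zero]
      · rw [if_neg (by rw [hH i]; exact mul_ne_zero (pow_ne_zero _ hB) h0), hH i,
          A.v_mul _ _ (pow_ne_zero _ hB) h0, H25.v_pow _ hB]
        ring
  have hET : ∀ (T : Finset (Fin r)) (z : ZMod p) (g0 : ℤ),
      (∀ i : Fin r, (i ∈ T ↔ H i = 0)) → z = (A.ac B)⁻¹ →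
      (H25.ET C N T p (Fin.cons z α) (Fin.cons g0 γ) ↔
        C p (fun i => A.ac (y i)) (fun i => A.v (y i))) := by
    intro T z g0 hT hz
    unfold H25.ET
    have e1 : ∀ i : Fin r, (Fin.cons z α : Fin (r + 2) → ZMod p) i.succ.succ = A.ac (H i) :=
      fun i => hα i
    have e2 : (Fin.cons z α : Fin (r + 2) → ZMod p) 0 = z := rfl
    have e3 : (Fin.cons z α : Fin (r + 2) → ZMod p) 1 = A.ac B := hα0
    simp only [e1, e2, e3]
    have e6 : ∀ i : Fin r, (Fin.cons g0 γ : Fin (r + 2) → ℤ) i.succ.succ = A.v (H i) :=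
      fun i => hγ i
    have e7 : (Fin.cons g0 γ : Fin (r + 2) → ℤ) 1 = A.v B := hγ0
    have e4 : ∀ i : Fin r, (∑ j : Fin (r + 2), (if i ∈ T then 0 else
        (if j = i.succ.succ then 1 else 0) - (if j = 1 then (N : ℤ) else 0)) *
        (Fin.cons g0 γ : Fin (r + 2) → ℤ) j + 0) = A.v (y i) := by
      intro i
      rw [(hval i).2, add_zero]
      by_cases hi : i ∈ T
      · rw [if_pos ((hT i).1 hi)]
        simp [hi]
      · rw [if_neg fun h0 => hi ((hT i).2 h0)]
        simp only [if_neg hi, sub_mul, ite_mul, one_mul, zero_mul, Finset.sum_sub_distrib,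
          Finset.sum_ite_eq', Finset.mem_univ, if_true]
        rw [e6, e7]
    have e5 : ∀ i : Fin r, A.ac (H i) * z ^ N = A.ac (y i) := by
      intro i
      rw [hz, (hval i).1]
    simp only [e4, e5]
    constructor
    · rintro ⟨-, h1⟩
      exact h1
    · intro h1
      refine ⟨⟨?_, fun i => ?_⟩, h1⟩
      · rw [hz, inv_mul_cancel₀ hB']
      · rw [hT i, A.ac_zero]
  constructor
  · rintro ⟨T, z, g0, hz⟩
    have hz1 : z * α 0 = 1 := hz.1.1
    rw [hα0] at hz1
    have hT : ∀ i : Fin r, (i ∈ T ↔ α i.succ = 0) := hz.1.2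
    refine (hET T z g0 (fun i => ?_) (eq_inv_of_mul_eq_one_left hz1)).1 hz
    rw [hT i, hα i, A.ac_zero]
  · intro h1
    exact ⟨Finset.univ.filter fun i => H i = 0, (A.ac B)⁻¹, 0,
      (hET _ _ 0 (fun i => by simp) rfl).2 h1⟩

/-- forgetting the first variable -/
def CS {r : ℕ} (C : Cond r) : Cond (r + 1) := fun p a g => C p (fun j => a j.succ) (fun j => g j.succ)

theorem ub_CS (ubs : UbsStmt) {r : ℕ} {C : Cond r} (hC : UB r C) : UB (r + 1) (CS C) := by
  refine H25.ub_congr (ubs r (r + 1) C hC (fun i => MvPolynomial.X i.succ)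
    (fun i j => if j = i.succ then 1 else 0) (fun _ => 0)) fun p a g => ?_
  simp only [MvPolynomial.aeval_X, ite_mul, one_mul, zero_mul, Finset.sum_ite_eq',
    Finset.mem_univ, if_true, add_zero]
  exact Iff.rfl

end Pool.Agent.FHQ.H35
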