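import Pool.Agent.FHQ.StmtsW

/-!
# STP, part a: weighted degrees, the linear map, the dimension count
-/

set_option autoImplicit false

open scoped BigOperators

noncomputable section

namespace Pool.Agent.FHQ.H35

open Polynomial Pool.Agent.FHQ

variable {k : Type} [Field k]

/-! ### weighted degrees -/

theorem wd_mono {e W W' : ℕ} {F : k[X][X]} (hW : W ≤ W') (h : WD e W F) : WD e W' F :=
  fun b hb => (h b hb).trans hW

theorem wd_zero (e W : ℕ) : WD e W (0 : k[X][X]) := fun b hb => absurd (coeff_zero b) hb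

theorem wd_add {e W : ℕ} {F G : k[X][X]} (hF : WD e W F) (hG : WD e W G) : WD e W (F + G) := by
  intro b hb
  rw [coeff_add] at hb ⊢
  by_cases h1 : F.coeff b = 0
  · rw [h1, zero_add] at hb ⊢
    exact hG b hb
  · by_cases h2 : G.coeff b = 0
    · rw [h2, add_zero]
      exact hF b h1
    · have h3 := natDegree_add_le (F.coeff b) (G.coeff b)
      have h4 := hF b h1
      have h5 := hG b h2
      omega

theorem wd_sum {ι : Type} {e W : ℕ} (s : Finset ι) (F : ι → k[X][X]) (h : ∀ i ∈ s, WD e W (F i)) :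
    WD e W (∑ i ∈ s, F i) := by
  classical
  induction s using Finset.induction_on with
  | empty =>
    rw [Finset.sum_empty]
    exact wd_zero e W
  | insert a s ha ih =>
    rw [Finset.sum_insert ha]
    exact wd_add (h a (Finset.mem_insert_self _ _))
      (ih fun i hi => h i (Finset.mem_insert_of_mem hi))

theorem wd_one (e : ℕ) : WD e 0 (1 : k[X][X]) := by
  intro b hb
  have hb0 : b = 0 := by
    by_contra h
    exact hb (by rw [coeff_one, if_neg h])
  subst hb0
  rw [coeff_one_zero, natDegree_one]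
  simp

theorem wd_pow {e W : ℕ} {F : k[X][X]}
    (hm : ∀ W W' (F G : k[X][X]), WD e W F → WD e W' G → WD e (W + W') (F * G))
    (hF : WD e W F) (n : ℕ) : WD e (n * W) (F ^ n) := by
  induction n with
  | zero =>
    rw [pow_zero, zero_mul]
    exact wd_one e
  | succ n ih =>
    rw [pow_succ, Nat.succ_mul]
    exact hm _ _ _ _ ih hF

theorem wd_basic (e i j : ℕ) : WD e (i + e * j) (C ((X : k[X]) ^ i) * (X : k[X][X]) ^ j) := by
  intro b hb
  rw [coeff_C_mul, coeff_X_pow] at hb ⊢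
  by_cases h : b = j
  · rw [if_pos h, mul_one, natDegree_X_pow, h]
  · rw [if_neg h, mul_zero] at hb
    exact absurd rfl hb

theorem wd_bd {e d m : ℕ} {F : k[X][X]} (h1 : F.natDegree < d)
    (h2 : ∀ b, (F.coeff b).natDegree ≤ m) : WD e (m + e * (d - 1)) F := by
  intro b hb
  have h3 : b ≤ F.natDegree := le_natDegree_of_ne_zero hb
  have h4 : b ≤ d - 1 := by omega
  exact Nat.add_le_add (h2 b) (Nat.mul_le_mul_left e h4)

/-! ### evaluation -/

theorem ev_eq (x t : k) (F : k[X][X]) : ev x t F = F.eval₂ (evalRingHom x) t := rfl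

/-- `F ↦ F(x, t)` as a ring homomorphism -/
def evH (x t : k) : k[X][X] →+* k := eval₂RingHom (evalRingHom x) t

theorem evH_apply (x t : k) (F : k[X][X]) : evH x t F = ev x t F := rfl

theorem ev_smul (x t c : k) (F : k[X][X]) : ev x t (c • F) = c * ev x t F := by
  have h1 : c • F = C (C c) * F := by
    ext1 b
    rw [coeff_smul, coeff_C_mul, smul_eq_C_mul]
  rw [h1, ← evH_apply, map_mul, evH_apply]
  congr 1
  rw [ev_eq, eval₂_C, coe_evalRingHom, eval_C]

theorem ev_expand (x t : k) (F : k[X][X]) : ev x t F =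
    ∑ b ∈ F.support, ∑ a ∈ (F.coeff b).support, (F.coeff b).coeff a * (x ^ a * t ^ b) := by
  rw [ev_eq, eval₂_eq_sum, Polynomial.sum_def]
  refine Finset.sum_congr rfl fun b _ => ?_
  rw [coe_evalRingHom, eval_eq_sum, Polynomial.sum_def, Finset.sum_mul]
  refine Finset.sum_congr rfl fun a _ => ?_
  ring

theorem mem_span_mon (Z : Set (k × k × k)) (e w i j W : ℕ) (F : k[X][X]) (hF : WD e w F)
    (hW : w + i + e * j ≤ W) :
    (fun q : Z => ev q.1.1 q.1.2.1 F * (q.1.1 ^ i * q.1.2.2 ^ j)) ∈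
      Submodule.span k {f : Z → k | ∃ a b c, a + e * (b + c) ≤ W ∧ f = mon Z a b c} := by
  have h1 : (fun q : Z => ev q.1.1 q.1.2.1 F * (q.1.1 ^ i * q.1.2.2 ^ j)) =
      ∑ b ∈ F.support, ∑ a ∈ (F.coeff b).support, (F.coeff b).coeff a • mon Z (a + i) b j := by
    funext q
    rw [Finset.sum_apply, ev_expand, Finset.sum_mul]
    refine Finset.sum_congr rfl fun b _ => ?_
    rw [Finset.sum_apply, Finset.sum_mul]
    refine Finset.sum_congr rfl fun a _ => ?_
    rw [Pi.smul_apply, smul_eq_mul]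
    unfold mon
    ring
  rw [h1]
  refine Submodule.sum_mem _ fun b hb => Submodule.sum_mem _ fun a ha => ?_
  refine Submodule.smul_mem _ _ (Submodule.subset_span ⟨a + i, b, j, ?_, rfl⟩)
  rw [mem_support_iff] at hb ha
  have h2 := hF b hb
  have h3 : a ≤ (F.coeff b).natDegree := le_natDegree_of_ne_zero ha
  have h4 : e * (b + j) = e * b + e * j := by ring
  omega

/-! ### the dimension -/

theorem finrank_U (Z : Set (k × k × k)) (W d : ℕ) :
    Module.Finite k (Submodule.span k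
      {f : Z → k | ∃ a b c, a ≤ W ∧ b < d ∧ c < d - 1 ∧ f = mon Z a b c}) ∧
    Module.finrank k (Submodule.span k
      {f : Z → k | ∃ a b c, a ≤ W ∧ b < d ∧ c < d - 1 ∧ f = mon Z a b c}) ≤
      (W + 1) * (d * (d - 1)) := by
  have h1 : {f : Z → k | ∃ a b c, a ≤ W ∧ b < d ∧ c < d - 1 ∧ f = mon Z a b c} =
      Set.range (fun s : Fin (W + 1) × Fin d × Fin (d - 1) => mon Z s.1 s.2.1 s.2.2) := by
    ext f
    constructor
    · rintro ⟨a, b, c, ha, hb, hc, rfl⟩
      exact ⟨(⟨a, by omega⟩, ⟨b, hb⟩, ⟨c, hc⟩), rfl⟩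
    · rintro ⟨⟨a, b, c⟩, rfl⟩
      exact ⟨a, b, c, Nat.lt_succ_iff.1 a.2, b.2, c.2, rfl⟩
  rw [h1]
  refine ⟨Module.Finite.span_of_finite k (Set.finite_range _), ?_⟩
  refine (finrank_range_le_card _).trans ?_
  rw [Fintype.card_prod, Fintype.card_prod, Fintype.card_fin, Fintype.card_fin, Fintype.card_fin]

/-! ### the derivation -/

theorem dX_add (F G : k[X][X]) : dX (F + G) = dX F + dX G := by
  ext1 b
  rw [coeff_dX, coeff_add, coeff_add, coeff_dX, coeff_dX, derivative_add]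

theorem dX_smul (c : k) (F : k[X][X]) : dX (c • F) = c • dX F := by
  ext1 b
  rw [coeff_dX, coeff_smul, coeff_smul, coeff_dX, derivative_smul]

theorem Dv_smul (h : k[X][X]) (c : k) (F : k[X][X]) : Dv h (c • F) = c • Dv h F := by
  unfold Dv
  rw [dX_smul, derivative_smul, mul_smul_comm, mul_smul_comm, smul_sub]

theorem Dv_add (h F G : k[X][X]) : Dv h (F + G) = Dv h F + Dv h G := by
  unfold Dv
  rw [dX_add, derivative_add]
  ring

theorem Dv_iter_smul (h : k[X][X]) (n : ℕ) (c : k) (F : k[X][X]) :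
    (Dv h)^[n] (c • F) = c • (Dv h)^[n] F := by
  induction n with
  | zero => rfl
  | succ n ih => rw [Function.iterate_succ_apply', Function.iterate_succ_apply', ih, Dv_smul]

theorem Dv_iter_add (h : k[X][X]) (n : ℕ) (F G : k[X][X]) :
    (Dv h)^[n] (F + G) = (Dv h)^[n] F + (Dv h)^[n] G := by
  induction n with
  | zero => rfl
  | succ n ih =>
    rw [Function.iterate_succ_apply', Function.iterate_succ_apply', Function.iterate_succ_apply',
      ih, Dv_add]

theorem Dv_iter_zero (h : k[X][X]) (n : ℕ) : (Dv h)^[n] 0 = 0 := by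
  have h1 := Dv_iter_smul h n (0 : k) 0
  rw [zero_smul, zero_smul] at h1
  exact h1

theorem Dv_iter_sum {ι : Type} (h : k[X][X]) (n : ℕ) (s : Finset ι) (F : ι → k[X][X]) :
    (Dv h)^[n] (∑ i ∈ s, F i) = ∑ i ∈ s, (Dv h)^[n] (F i) := by
  classical
  induction s using Finset.induction_on with
  | empty => rw [Finset.sum_empty, Finset.sum_empty, Dv_iter_zero]
  | insert a s ha ih => rw [Finset.sum_insert ha, Finset.sum_insert ha, Dv_iter_add, ih]

/-! ### the unknowns -/

/-- the coefficients of the `r i j` -/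
abbrev Unk (k : Type) (I d m : ℕ) : Type := Fin (I + 1) × Fin d × Fin (m + 1) × Fin d → k

/-- the polynomials `r i j` -/
def rr {I d m : ℕ} (c : Unk k I d m) (i : Fin (I + 1)) (j : Fin d) : k[X][X] :=
  ∑ a : Fin (m + 1), ∑ b : Fin d, c (i, j, a, b) • (C ((X : k[X]) ^ (a : ℕ)) * X ^ (b : ℕ))

theorem rr_add {I d m : ℕ} (c c' : Unk k I d m) (i : Fin (I + 1)) (j : Fin d) :
    rr (c + c') i j = rr c i j + rr c' i j := by
  unfold rr
  rw [← Finset.sum_add_distrib]
  refine Finset.sum_congr rfl fun a _ => ?_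
  rw [← Finset.sum_add_distrib]
  refine Finset.sum_congr rfl fun b _ => ?_
  rw [Pi.add_apply, add_smul]

theorem rr_smul {I d m : ℕ} (s : k) (c : Unk k I d m) (i : Fin (I + 1)) (j : Fin d) :
    rr (s • c) i j = s • rr c i j := by
  unfold rr
  rw [Finset.smul_sum]
  refine Finset.sum_congr rfl fun a _ => ?_
  rw [Finset.smul_sum]
  refine Finset.sum_congr rfl fun b _ => ?_
  rw [Pi.smul_apply, smul_assoc]

theorem rr_coeff {I d m : ℕ} (c : Unk k I d m) (i : Fin (I + 1)) (j : Fin d) (b : Fin d) :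
    (rr c i j).coeff b = ∑ a : Fin (m + 1), c (i, j, a, b) • (X : k[X]) ^ (a : ℕ) := by
  unfold rr
  rw [finsetSum_coeff]
  refine Finset.sum_congr rfl fun a _ => ?_
  rw [finsetSum_coeff, Finset.sum_eq_single b]
  · rw [coeff_smul, coeff_C_mul, coeff_X_pow, if_pos rfl, mul_one]
  · intro b' _ hb
    rw [coeff_smul, coeff_C_mul, coeff_X_pow, if_neg (fun h => hb (Fin.ext h.symm)), mul_zero,
      smul_zero]
  · intro hb
    exact absurd (Finset.mem_univ b) hb

theorem rr_coeff_coeff {I d m : ℕ} (c : Unk k I d m) (i : Fin (I + 1)) (j : Fin d) (b : Fin d)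
    (a : Fin (m + 1)) : ((rr c i j).coeff b).coeff a = c (i, j, a, b) := by
  rw [rr_coeff, finsetSum_coeff, Finset.sum_eq_single a]
  · rw [coeff_smul, coeff_X_pow, if_pos rfl, smul_eq_mul, mul_one]
  · intro a' _ ha
    rw [coeff_smul, coeff_X_pow, if_neg (fun h => ha (Fin.ext h.symm)), smul_zero]
  · intro ha
    exact absurd (Finset.mem_univ a) ha

theorem rr_bd {I d m : ℕ} (hd : 0 < d) (c : Unk k I d m) (i : Fin (I + 1)) (j : Fin d) :
    (rr c i j).natDegree < d ∧ ∀ b, ((rr c i j).coeff b).natDegree ≤ m := by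
  have h1 : ∀ b, d ≤ b → (rr c i j).coeff b = 0 := by
    intro b hb
    unfold rr
    rw [finsetSum_coeff]
    refine Finset.sum_eq_zero fun a _ => ?_
    rw [finsetSum_coeff]
    refine Finset.sum_eq_zero fun b' _ => ?_
    rw [coeff_smul, coeff_C_mul, coeff_X_pow, if_neg (by have := b'.2; omega), mul_zero, smul_zero]
  constructor
  · by_contra h
    rw [not_lt] at h
    have h2 := h1 _ h
    rw [coeff_natDegree, leadingCoeff_eq_zero] at h2
    rw [h2, natDegree_zero] at h
    omega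
  · intro b
    rcases Nat.lt_or_ge b d with h | h
    · have h2 := rr_coeff c i j ⟨b, h⟩
      rw [show ((⟨b, h⟩ : Fin d) : ℕ) = b from rfl] at h2
      rw [h2]
      refine natDegree_sum_le_of_forall_le _ _ fun a _ => ?_
      refine (natDegree_smul_le _ _).trans ?_
      rw [natDegree_X_pow]
      exact Nat.lt_succ_iff.1 a.2
    · rw [h1 b h, natDegree_zero]
      exact Nat.zero_le _

/-- the linear map `c ↦ F_n` -/
def Phi (h : k[X][X]) (I d m : ℕ) (n : ℕ) : Unk k I d m →ₗ[k] (ZZ h → k) where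
  toFun c := fun q => ∑ i : Fin (I + 1), ∑ j : Fin d,
    ev q.1.1 q.1.2.1 ((Dv h)^[n] (rr c i j)) * (q.1.1 ^ (i : ℕ) * q.1.2.2 ^ (j : ℕ))
  map_add' c c' := by
    funext q
    rw [Pi.add_apply, ← Finset.sum_add_distrib]
    refine Finset.sum_congr rfl fun i _ => ?_
    rw [← Finset.sum_add_distrib]
    refine Finset.sum_congr rfl fun j _ => ?_
    rw [rr_add, Dv_iter_add, ← evH_apply, map_add, evH_apply, evH_apply]
    ring
  map_smul' s c := by
    funext q
    rw [RingHom.id_apply, Pi.smul_apply, smul_eq_mul, Finset.mul_sum]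
    refine Finset.sum_congr rfl fun i _ => ?_
    rw [Finset.mul_sum]
    refine Finset.sum_congr rfl fun j _ => ?_
    rw [rr_smul, Dv_iter_smul, ev_smul]
    ring

theorem Phi_apply (h : k[X][X]) (I d m n : ℕ) (c : Unk k I d m) (q : ZZ h) :
    Phi h I d m n c q = ∑ i : Fin (I + 1), ∑ j : Fin d,
      ev q.1.1 q.1.2.1 ((Dv h)^[n] (rr c i j)) * (q.1.1 ^ (i : ℕ) * q.1.2.2 ^ (j : ℕ)) := rfl

theorem Phi_mem (h : k[X][X]) (e I d m n l : ℕ) (hd : 0 < d)
    (hwd : ∀ n W (F : k[X][X]), WD e W F → WD e (W + n * (d * e)) ((Dv h)^[n] F)) (hn : n < l)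
    (c : Unk k I d m) :
    Phi h I d m n c ∈ Submodule.span k {f : ZZ h → k | ∃ a b c,
      a + e * (b + c) ≤ m + 2 * (d * e) + l * (d * e) + I ∧ f = mon (ZZ h) a b c} := by
  have h1 : Phi h I d m n c = ∑ i : Fin (I + 1), ∑ j : Fin d, (fun q : ZZ h =>
      ev q.1.1 q.1.2.1 ((Dv h)^[n] (rr c i j)) * (q.1.1 ^ (i : ℕ) * q.1.2.2 ^ (j : ℕ))) := by
    funext q
    rw [Phi_apply, Finset.sum_apply]
    refine Finset.sum_congr rfl fun i _ => ?_
    rw [Finset.sum_apply]
  rw [h1]
  refine Submodule.sum_mem _ fun i _ => Submodule.sum_mem _ fun j _ => ?_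
  obtain ⟨h2, h3⟩ := rr_bd hd c i j
  refine mem_span_mon (ZZ h) e _ i j _ _ (hwd n _ _ (wd_bd h2 h3)) ?_
  have h4 : (i : ℕ) ≤ I := Nat.lt_succ_iff.1 i.2
  have h5 : e * (d - 1) ≤ d * e := by
    rw [mul_comm d e]
    exact Nat.mul_le_mul_left e (Nat.sub_le _ _)
  have h6 : e * (j : ℕ) ≤ d * e := by
    rw [mul_comm d e]
    exact Nat.mul_le_mul_left e j.2.le
  have h7 : n * (d * e) ≤ l * (d * e) := Nat.mul_le_mul_right _ hn.le
  omega

theorem exists_ker (h : k[X][X]) (e I d m l : ℕ) (hd : 2 ≤ d) (hh : Mh d e h)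
    (hwd : ∀ n W (F : k[X][X]), WD e W F → WD e (W + n * (d * e)) ((Dv h)^[n] F))
    (red : RedStmt)
    (hlt : l * ((m + 2 * (d * e) + l * (d * e) + I + 1) * (d * (d - 1))) <
      (I + 1) * d * ((m + 1) * d)) :
    ∃ c : Unk k I d m, c ≠ 0 ∧ ∀ n < l, ∀ q : ZZ h, Phi h I d m n c q = 0 := by
  set W := m + 2 * (d * e) + l * (d * e) + I with hW
  set U := Submodule.span k
    {f : ZZ h → k | ∃ a b c, a ≤ W ∧ b < d ∧ c < d - 1 ∧ f = mon (ZZ h) a b c} with hU
  obtain ⟨hfin, hrk⟩ := finrank_U (ZZ h) W d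
  have hmem : ∀ (n : Fin l) (c : Unk k I d m), Phi h I d m n c ∈ U := by
    intro n c
    exact red k d e W h hh hd (Phi_mem h e I d m n l (by omega) hwd n.2 c)
  let Ψ : Unk k I d m →ₗ[k] (Fin l → U) :=
    LinearMap.pi fun n => (Phi h I d m n).codRestrict U (hmem n)
  have _i : Module.Finite k U := hfin
  have hker : LinearMap.ker Ψ ≠ ⊥ := by
    apply LinearMap.ker_ne_bot_of_finrank_lt
    rw [Module.finrank_pi_fintype, Finset.sum_const, Finset.card_univ, Fintype.card_fin,
      smul_eq_mul, Module.finrank_fintype_fun_eq_card, Fintype.card_prod, Fintype.card_prod,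
      Fintype.card_prod, Fintype.card_fin, Fintype.card_fin, Fintype.card_fin]
    refine lt_of_le_of_lt (Nat.mul_le_mul_left l hrk) ?_
    refine hlt.trans_le (le_of_eq ?_)
    ring
  obtain ⟨c, hc, hc0⟩ := (Submodule.ne_bot_iff _).1 hker
  refine ⟨c, hc0, ?_⟩
  intro n hn q
  have h1 : Ψ c = 0 := hc
  have h2 := congrFun h1 ⟨n, hn⟩
  have h3 : Phi h I d m n c = 0 := by
    have h4 := congrArg (fun z : U => (z : ZZ h → k)) h2
    exact h4
  rw [h3]
  rfl

end Pool.Agent.FHQ.H35
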