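import Pool.Agent.Helper35_FHQ.STPa
import Pool.Agent.Helper35_FHQ.LOC

/-!
# STP, part b: the local part
-/

set_option autoImplicit false

open scoped BigOperators

noncomputable section

namespace Pool.Agent.FHQ.H35

open Polynomial Pool.Agent.FHQ

section gen

variable {k : Type} [Field k]

theorem phi_taylor (x : k) (N : k[X]) : phi x N = ((taylor x N : k[X]) : PowerSeries k) := by
  have h1 : phi x = (Polynomial.coeToPowerSeries.ringHom (R := k)).comp
      (compRingHom (X + C x)) := by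
    apply Polynomial.ringHom_ext
    · intro a
      rw [phi_C, RingHom.comp_apply, coe_compRingHom_apply, C_comp,
        Polynomial.coeToPowerSeries.ringHom_apply, Polynomial.coe_C]
    · rw [phi_X, RingHom.comp_apply, coe_compRingHom_apply, X_comp,
        Polynomial.coeToPowerSeries.ringHom_apply, Polynomial.coe_add, Polynomial.coe_C,
        Polynomial.coe_X, add_comm]
  rw [h1, RingHom.comp_apply, coe_compRingHom_apply, Polynomial.coeToPowerSeries.ringHom_apply,
    taylor_apply]

theorem psv_C (x : k) (τ : PowerSeries k) (N : k[X]) :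
    psv x τ (C N) = ((taylor x N : k[X]) : PowerSeries k) := by
  rw [psv_eq, eval₂_C, phi_taylor]

theorem dvd_of_psv (x : k) (τ : PowerSeries k) (N : k[X]) (n : ℕ)
    (h : (PowerSeries.X : PowerSeries k) ^ n ∣ psv x τ (C N)) : (X - C x) ^ n ∣ N := by
  rw [psv_C, PowerSeries.X_pow_dvd_iff] at h
  have h1 : (X : k[X]) ^ n ∣ taylor x N := by
    rw [Polynomial.X_pow_dvd_iff]
    intro m hm
    have h2 := h m hm
    rwa [Polynomial.coeff_coe] at h2
  obtain ⟨q, hq⟩ := h1
  have h3 : taylor (-x) (taylor x N) = N := by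
    rw [taylor_taylor, neg_add_cancel, taylor_zero]
  rw [hq, taylor_mul, taylor_pow, taylor_X, C_neg, ← sub_eq_add_neg] at h3
  exact ⟨_, h3.symm⟩

theorem ev_map (x t : k) (h : k[X][X]) : ev x t h = (h.map (evalRingHom x)).eval t := by
  rw [ev_eq, eval_map]

/-- enumeration of the roots -/
theorem exists_roots [IsAlgClosed k] {d e : ℕ} {h : k[X][X]} (hh : Mh d e h) (x : k)
    (hs : ∀ t, ev x t h = 0 → ev x t (derivative h) ≠ 0) :
    ∃ r : Fin d → k, Function.Injective r ∧ ∀ t, ev x t h = 0 ↔ ∃ i, r i = t := by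
  classical
  set g := h.map (evalRingHom x) with hg
  have hmon : g.Monic := hh.mon.map _
  have hdeg : g.natDegree = d := by
    rw [hg, hh.mon.natDegree_map, hh.deg]
  have hg0 : g ≠ 0 := hmon.ne_zero
  have hcard : Multiset.card g.roots = d := by
    rw [← hdeg]
    exact (splits_iff_card_roots.1 (IsAlgClosed.splits g))
  have hnod : g.roots.Nodup := by
    rw [Multiset.nodup_iff_count_le_one]
    intro t
    rw [count_roots]
    by_contra h1
    rw [not_le, one_lt_rootMultiplicity_iff_isRoot hg0] at h1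
    obtain ⟨h2, h3⟩ := h1
    refine hs t ?_ ?_
    · rw [ev_map]
      exact h2
    · rw [ev_map, ← derivative_map]
      exact h3
  have hc2 : g.roots.toFinset.card = d := by
    rw [Multiset.toFinset_card_of_nodup hnod, hcard]
  let E := g.roots.toFinset.equivFinOfCardEq hc2
  refine ⟨fun i => (E.symm i : k), ?_, ?_⟩
  · intro i j hij
    exact E.symm.injective (Subtype.ext hij)
  · intro t
    have h1 : ev x t h = 0 ↔ t ∈ g.roots.toFinset := by
      rw [Multiset.mem_toFinset, mem_roots hg0, ev_map]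
      rfl
    rw [h1]
    constructor
    · intro h2
      refine ⟨E ⟨t, h2⟩, ?_⟩
      change ((E.symm (E ⟨t, h2⟩) : g.roots.toFinset) : k) = t
      rw [Equiv.symm_apply_apply]
    · rintro ⟨i, rfl⟩
      exact (E.symm i).2

/-- the divisibility at one point -/
theorem local_dvd [IsAlgClosed k] (p : ℕ) [Fact p.Prime] [CharP k p] (loc : LocStmt) {d e l : ℕ}
    (hl : l ≤ p) {h : k[X][X]} (hh : Mh d e h) (x : k)
    (hs : ∀ t, ev x t h = 0 → ev x t (derivative h) ≠ 0)
    (A : k[X][X]) (hN : ∀ (τ : Fin d → PowerSeries k),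
      (∀ i j, i ≠ j → PowerSeries.constantCoeff (τ i) ≠ PowerSeries.constantCoeff (τ j)) →
      (∀ i, psv x (τ i) h = 0) → psv x 0 (C (nrm d h A)) = ∏ i, psv x (τ i) A)
    (Q : k → Prop) (hQ : ∀ t, ev x t h = 0 → Q t → ∀ n < l, ev x t ((Dv h)^[n] A) = 0) :
    ∃ S : Finset k, (∀ t, t ∈ S ↔ ev x t h = 0 ∧ Q t) ∧
      (X - C x) ^ (l * S.card) ∣ nrm d h A := by
  classical
  obtain ⟨r, hr1, hr2⟩ := exists_roots hh x hs
  have h0 : ∀ i, ev x (r i) h = 0 := fun i => (hr2 _).2 ⟨i, rfl⟩
  choose τ hτ1 hτ2 hτ3 hτ4 using fun i => loc k p h x (r i) (h0 i) (hs _ (h0 i))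
  have h1 := hN τ (by
    intro i j hij hc
    rw [hτ1, hτ1] at hc
    exact hij (hr1 hc)) hτ2
  refine ⟨(Finset.univ.filter fun i => Q (r i)).image r, ?_, ?_⟩
  · intro t
    rw [Finset.mem_image]
    constructor
    · rintro ⟨i, hi, rfl⟩
      rw [Finset.mem_filter] at hi
      exact ⟨h0 i, hi.2⟩
    · rintro ⟨h2, h3⟩
      obtain ⟨i, rfl⟩ := (hr2 t).1 h2
      exact ⟨i, Finset.mem_filter.2 ⟨Finset.mem_univ _, h3⟩, rfl⟩
  · rw [Finset.card_image_of_injective _ hr1]
    apply dvd_of_psv x 0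
    rw [h1]
    refine dvd_trans ?_ (Finset.prod_dvd_prod_of_subset
      (Finset.univ.filter fun i => Q (r i)) Finset.univ _ (Finset.filter_subset _ _))
    rw [pow_mul, ← Finset.prod_const]
    refine Finset.prod_dvd_prod_of_dvd _ _ fun i hi => ?_
    rw [Finset.mem_filter] at hi
    exact hτ4 i l hl A (hQ _ (h0 i) hi.2)

/-- the sum over the points -/
theorem sum_le_natDegree {ι : Type} [Fintype ι] (f : ι → k) (hf : Function.Injective f)
    (n : ι → ℕ) (N : k[X]) (hN : N ≠ 0) (h : ∀ i, (X - C (f i)) ^ n i ∣ N) :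
    ∑ i, n i ≤ N.natDegree := by
  have h1 : (∏ i, (X - C (f i)) ^ n i) ∣ N := by
    refine Finset.prod_dvd_of_coprime ?_ fun i _ => h i
    intro i _ j _ hij
    exact (pairwise_coprime_X_sub_C hf hij).pow
  have h2 := natDegree_le_of_dvd h1 hN
  rw [natDegree_prod_of_monic] at h2
  · refine le_trans (le_of_eq ?_) h2
    refine Finset.sum_congr rfl fun i _ => ?_
    rw [natDegree_pow, natDegree_X_sub_C, mul_one]
  · intro i _
    exact (monic_X_sub_C _).pow _

end gen

section fp

variable (p : ℕ) [Fact p.Prime]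

theorem charP_AC : CharP (AlgebraicClosure (ZMod p)) p :=
  charP_of_injective_algebraMap (algebraMap (ZMod p) (AlgebraicClosure (ZMod p))).injective p

theorem mem_prime (t : AlgebraicClosure (ZMod p)) (ht : t ^ p = t) :
    ∃ y : ZMod p, algebraMap (ZMod p) (AlgebraicClosure (ZMod p)) y = t := by
  have _i := charP_AC p
  rw [← Subfield.mem_bot_iff_pow_eq_self, ← ZMod.fieldRange_castHom_eq_bot p] at ht
  obtain ⟨y, hy⟩ := ht
  refine ⟨y, ?_⟩
  rw [← hy]
  congr 1
  exact Subsingleton.elim _ _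

theorem frob_ev (h : (ZMod p)[X][X]) (x : ZMod p) (t : AlgebraicClosure (ZMod p)) :
    ev (algebraMap (ZMod p) (AlgebraicClosure (ZMod p)) x) (t ^ p)
      (h.map (mapRingHom (algebraMap (ZMod p) (AlgebraicClosure (ZMod p))))) =
    (ev (algebraMap (ZMod p) (AlgebraicClosure (ZMod p)) x) t
      (h.map (mapRingHom (algebraMap (ZMod p) (AlgebraicClosure (ZMod p)))))) ^ p := by
  have _i := charP_AC p
  have h1 : ∀ z : AlgebraicClosure (ZMod p), z ^ p = frobenius (AlgebraicClosure (ZMod p)) p z :=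
    fun z => rfl
  rw [h1, h1, ev_eq, ev_eq, hom_eval₂, eval₂_map, eval₂_map]
  congr 1
  apply Polynomial.ringHom_ext
  · intro a
    rw [RingHom.comp_apply, RingHom.comp_apply, RingHom.comp_apply, coe_mapRingHom, map_C,
      coe_evalRingHom, eval_C, frobenius_def, ← map_pow, ZMod.pow_card]
  · rw [RingHom.comp_apply, RingHom.comp_apply, RingHom.comp_apply, coe_mapRingHom, map_X,
      coe_evalRingHom, eval_X, frobenius_def, ← map_pow, ZMod.pow_card]

end fp

end Pool.Agent.FHQ.H35
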